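import Pool.Agent.MVK.Stmts

/-!
# MVK, row SHK (helper76): the shape of the words equivalent to `bw P Q m`
-/

set_option autoImplicit false

namespace Pool.Agent.MVK.H76

open Pool.Agent.Helper14_MV Pool.Agent.Helper2_MV Pool.Agent.MVD

theorem mem_Bw {R : List ℕ} {B : ℕ → List ℕ} {c : ℕ} (h : c ∈ Bw R B) :
    ∃ r ∈ R, c ∈ B r ∨ c = 3 * r + 2 := by
  unfold Bw at h
  rw [List.mem_flatMap] at h
  obtain ⟨r, hr, hc⟩ := h
  rw [List.mem_append, List.mem_singleton] at hc
  exact ⟨r, hr, hc⟩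

theorem mem_Bw_of {R : List ℕ} {B : ℕ → List ℕ} {c r : ℕ} (hr : r ∈ R) (hc : c ∈ B r) :
    c ∈ Bw R B := by
  unfold Bw
  rw [List.mem_flatMap]
  exact ⟨r, hr, List.mem_append.2 (Or.inl hc)⟩

theorem zs_count_z (D : List ℕ) (E : ℕ) : (zs D).count (3 * E + 1) = D.count E := by
  unfold zs
  exact List.count_map_of_injective D (fun e => 3 * e + 1)
    (fun a b h => by
      have h' : 3 * a + 1 = 3 * b + 1 := h
      omega) E

theorem zs_count_0 (D : List ℕ) : (zs D).count 0 = 0 := by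
  unfold zs
  rw [List.count_eq_zero, List.mem_map]
  rintro ⟨i, -, hi⟩
  omega

theorem mem_zs {D : List ℕ} {c : ℕ} (h : c ∈ zs D) : ∃ E ∈ D, c = 3 * E + 1 := by
  unfold zs at h
  rw [List.mem_map] at h
  obtain ⟨E, hE, rfl⟩ := h
  exact ⟨E, hE, rfl⟩

theorem range_count {m E : ℕ} (h : E < m) : (List.range m).count E = 1 :=
  List.count_eq_one_of_mem List.nodup_range (List.mem_range.2 h)

theorem mem_Rl {P Q : List ℕ} {m : ℕ} (h : (P ++ Q).Perm (List.range m)) (r : ℕ) :
    r ∈ Rl P Q ↔ r = 0 ∨ ∃ E < m, r = E + 1 := by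
  unfold Rl
  rw [List.mem_append, List.mem_cons, List.mem_map, List.mem_map]
  have hm : ∀ E, (E ∈ P ∨ E ∈ Q) ↔ E < m := fun E => by
    rw [← List.mem_append, h.mem_iff, List.mem_range]
  constructor
  · rintro (⟨E, hE, rfl⟩ | rfl | ⟨E, hE, rfl⟩)
    · exact Or.inr ⟨E, (hm E).1 (Or.inl hE), rfl⟩
    · exact Or.inl rfl
    · exact Or.inr ⟨E, (hm E).1 (Or.inr hE), rfl⟩
  · rintro (rfl | ⟨E, hE, rfl⟩)
    · exact Or.inr (Or.inl rfl)
    · rcases (hm E).2 hE with h | h
      · exact Or.inl ⟨E, h, rfl⟩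
      · exact Or.inr (Or.inr ⟨E, h, rfl⟩)

theorem nodup_Rl {P Q : List ℕ} {m : ℕ} (h : (P ++ Q).Perm (List.range m)) : (Rl P Q).Nodup := by
  have h1 : (Rl P Q).Perm (0 :: (P ++ Q).map (fun e => e + 1)) := by
    unfold Rl
    rw [List.map_append]
    exact List.perm_middle
  rw [h1.nodup_iff, List.nodup_cons]
  refine ⟨?_, ?_⟩
  · rw [List.mem_map]
    rintro ⟨a, -, ha⟩
    omega
  · refine List.Nodup.map (fun a b hab => ?_) ?_
    · have h' : a + 1 = b + 1 := hab
      omega
    · rw [h.nodup_iff]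
      exact List.nodup_range

/-- a list with one letter `x` and otherwise letters `0` -/
theorem one_letter (x : ℕ) (hx : x ≠ 0) : ∀ l : List ℕ, l.count x = 1 → (∀ c ∈ l, c = 0 ∨ c = x) →
    ∃ a b : ℕ, l = List.replicate a 0 ++ ([x] ++ List.replicate b 0) := by
  intro l
  induction l with
  | nil =>
    intro h _
    simp at h
  | cons c l ih =>
    intro h hl
    rcases hl c (by simp) with rfl | rfl
    · rw [List.count_cons_of_ne (by omega)] at h
      obtain ⟨a, b, hab⟩ := ih h (fun d hd => hl d (by simp [hd]))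
      refine ⟨a + 1, b, ?_⟩
      rw [List.replicate_succ, hab]
      rfl
    · rw [List.count_cons_self] at h
      have h0 : l.count c = 0 := by omega
      have h1 : l = List.replicate l.length 0 := by
        rw [List.eq_replicate_iff]
        refine ⟨rfl, fun d hd => ?_⟩
        rcases hl d (by simp [hd]) with h2 | h2
        · exact h2
        · exfalso
          rw [List.count_eq_zero] at h0
          exact h0 (h2 ▸ hd)
      refine ⟨0, l.length, ?_⟩
      rw [List.replicate_zero, List.nil_append, List.singleton_append, ← h1]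

/-- a list of letters `3 E + 1` is `zs` of a list -/
theorem eq_zs : ∀ l : List ℕ, (∀ c ∈ l, ∃ E, c = 3 * E + 1) → ∃ D, l = zs D := by
  intro l
  induction l with
  | nil => intro _; exact ⟨[], rfl⟩
  | cons c l ih =>
    intro h
    obtain ⟨D, hD⟩ := ih (fun d hd => h d (by simp [hd]))
    obtain ⟨E, hE⟩ := h c (by simp)
    exact ⟨E :: D, by rw [hD, hE]; rfl⟩

theorem shk (dec : MVD.DecStmt) (kp2 : Kp2Stmt) : ShkStmt := by
  intro β H2 H3 P Q m hPQ w' hww'
  set R : List ℕ := Rl P Q with hR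
  set B : ℕ → List ℕ := fun r => if r = 0 then 0 :: (zs (List.range m) ++ [0])
    else [3 * (r - 1) + 1] with hB
  have hWm : bw P Q m = Bw R B := rfl
  have hB0 : B 0 = 0 :: (zs (List.range m) ++ [0]) := rfl
  have hBs : ∀ E, B (E + 1) = [3 * E + 1] := fun E => rfl
  have hRm : ∀ r, r ∈ R ↔ r = 0 ∨ ∃ E < m, r = E + 1 := mem_Rl hPQ
  have hRnd : R.Nodup := nodup_Rl hPQ
  have h0R : 0 ∈ R := (hRm 0).2 (Or.inl rfl)
  have hER : ∀ E < m, E + 1 ∈ R := fun E hE => (hRm _).2 (Or.inr ⟨E, hE, rfl⟩)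
  have hB0m : ∀ c ∈ B 0, c = 0 ∨ ∃ E < m, c = 3 * E + 1 := by
    intro c hc
    rw [hB0, List.mem_cons, List.mem_append, List.mem_singleton] at hc
    rcases hc with h | h | h
    · exact Or.inl h
    · obtain ⟨E, hE, h⟩ := mem_zs h
      exact Or.inr ⟨E, List.mem_range.1 hE, h⟩
    · exact Or.inl h
  have hBsf : ∀ r ∈ R, SFr (B r) := by
    intro r hr c hc
    rcases (hRm r).1 hr with rfl | ⟨E, hE, rfl⟩
    · rcases hB0m c hc with rfl | ⟨E, -, rfl⟩ <;> omega
    · rw [hBs, List.mem_singleton] at hc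
      omega
  rw [hWm] at hww'
  obtain ⟨B', e, hB'sf', hesf, rfl⟩ := dec β H3 R B w' hRnd hBsf hww'
  have hB'sf : ∀ r ∈ R, SFr (B' r) := fun r _ => hB'sf' r
  have hz : ∀ E < m, (∀ q ∈ R, (B' q).count (3 * E + 1) = if q = 0 ∨ q = E + 1 then 1 else 0) ∧
      e.count (3 * E + 1) = 0 := by
    intro E hE
    refine kp2 β H2 H3 R B B' e hRnd hBsf hB'sf hesf hww' (3 * E + 1) 0 (E + 1) (by omega) h0R
      (hER E hE) (by omega) fun q hq => ?_
    rcases (hRm q).1 hq with rfl | ⟨E', hE', rfl⟩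
    · rw [hB0, if_pos (Or.inl rfl), List.count_cons_of_ne (by omega), List.count_append,
        zs_count_z, range_count hE, List.count_singleton]
      simp
    · rw [hBs]
      by_cases h : E' = E
      · subst h
        rw [if_pos (Or.inr rfl)]
        simp
      · rw [if_neg (by omega), List.count_eq_zero, List.mem_singleton]
        omega
  have hcon : ∀ c ∈ Bw R B' ++ e, c % 3 ≠ 2 → c = 0 ∨ ∃ E < m, c = 3 * E + 1 := by
    intro c hc h2
    by_contra hno
    refine hww'.content H3 (c := c) ?_ hc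
    intro hm
    obtain ⟨r, hr, h | h⟩ := mem_Bw hm
    · rcases (hRm r).1 hr with rfl | ⟨E, hE, rfl⟩
      · exact hno (hB0m c h)
      · rw [hBs, List.mem_singleton] at h
        exact hno (Or.inr ⟨E, hE, h⟩)
    · omega
  have he0 : e = List.replicate e.length 0 := by
    rw [List.eq_replicate_iff]
    refine ⟨rfl, fun c hc => ?_⟩
    rcases hcon c (by simp [hc]) (hesf c hc) with h | ⟨E, hE, rfl⟩
    · exact h
    · exact absurd hc (List.count_eq_zero.1 (hz E hE).2)
  have hblock : ∀ r, ∃ a b : ℕ, r ∈ R → r ≠ 0 →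
      B' r = List.replicate a 0 ++ ([3 * (r - 1) + 1] ++ List.replicate b 0) := by
    intro r
    by_cases hr : r ∈ R ∧ r ≠ 0
    · obtain ⟨hr, hr0⟩ := hr
      rcases (hRm r).1 hr with rfl | ⟨E, hE, rfl⟩
      · exact absurd rfl hr0
      have hc1 : (B' (E + 1)).count (3 * E + 1) = 1 := by
        rw [(hz E hE).1 _ hr, if_pos (Or.inr rfl)]
      obtain ⟨a, b, hab⟩ := one_letter (3 * E + 1) (by omega) (B' (E + 1)) hc1 (by
        intro c hc
        rcases hcon c (by simp [mem_Bw_of hr hc]) (hB'sf' _ c hc) with h | ⟨E', hE', rfl⟩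
        · exact Or.inl h
        · right
          by_contra hne
          have h1 := (hz E' hE').1 _ hr
          rw [if_neg (by omega), List.count_eq_zero] at h1
          exact h1 hc)
      exact ⟨a, b, fun _ _ => hab⟩
    · exact ⟨0, 0, fun h1 h2 => absurd ⟨h1, h2⟩ hr⟩
  choose a b hab using hblock
  have hfil : ∀ c ∈ (B' 0).filter (fun c => decide (c ≠ 0)), ∃ E, c = 3 * E + 1 := by
    intro c hc
    rw [List.mem_filter, decide_eq_true_iff] at hc
    rcases hcon c (by simp [mem_Bw_of h0R hc.1]) (hB'sf' _ c hc.1) with h | ⟨E, -, h⟩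
    · exact absurd h hc.2
    · exact ⟨E, h⟩
  obtain ⟨D', hD'⟩ := eq_zs _ hfil
  refine ⟨B' 0, D', a, b, e.length, ?_, ?_, hD'⟩
  · unfold Wg
    rw [← he0, ← hR]
    refine congrArg (· ++ e) ?_
    unfold Bw
    apply List.flatMap_congr
    intro q hq
    rcases eq_or_ne q 0 with rfl | h0
    · rfl
    · refine congrArg (· ++ [3 * q + 2]) ?_
      show B' q = if q = 0 then B' 0 else
        List.replicate (a q) 0 ++ ([3 * (q - 1) + 1] ++ List.replicate (b q) 0)
      rw [if_neg h0]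
      exact hab q hq h0
  · rw [List.perm_iff_count]
    intro E
    rw [← zs_count_z, ← hD']
    by_cases hE : E < m
    · rw [range_count hE, List.count_filter (by simp), (hz E hE).1 0 h0R, if_pos (Or.inl rfl)]
    · rw [List.count_filter (by simp), List.count_eq_zero.2, List.count_eq_zero.2]
      · rw [List.mem_range]; exact hE
      · intro hc
        rcases hcon (3 * E + 1) (by simp [mem_Bw_of h0R hc]) (by omega) with h | ⟨E', hE', h⟩
        · omega
        · exact hE (by omega)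

end Pool.Agent.MVK.H76
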